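import Mathlib.Combinatorics.SimpleGraph.Metric
import Mathlib.Combinatorics.SimpleGraph.Clique
import Mathlib.Data.Set.Card
import Mathlib.Algebra.BigOperators.Group.Finset.Basic
import Mathlib.Algebra.Order.BigOperators.Group.Finset
import Mathlib.Order.ConditionallyCompleteLattice.Finset
import Mathlib.Data.Nat.Cast.Order.Ring
import Mathlib.Algebra.BigOperators.Ring.Finset
import Mathlib.Tactic.Linarith
import Mathlib.Tactic.Ring
import Mathlib.Tactic.Zify

/-!
# Independence number, even-distance counts and local independence

For every finite connected graph on at least two vertices,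
`α(G) ≤ 1 + δ_even(G) * (Λ(G) - 1)`.
-/

namespace Pool.Agent.Results.MP_c843e9_co.EvenDistanceBound

variable {V : Type*}

/-- `D_even(v)`: the number of vertices `u` whose distance to `v` is even (`u = v` is counted). -/
noncomputable def evenCount (G : SimpleGraph V) (v : V) : ℕ :=
  {u : V | Even (G.dist v u)}.ncard

/-- `λ(v)`: the independence number of the subgraph induced on the open neighbourhood of `v`. -/
noncomputable def localIndep (G : SimpleGraph V) (v : V) : ℕ :=
  (G.induce (G.neighborSet v)).indepNum

/-- `δ_even(G)`: the minimum of `D_even(v)` over all vertices `v`. -/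
noncomputable def minEven (G : SimpleGraph V) : ℕ := ⨅ v : V, evenCount G v

/-- `Λ(G)`: the maximum of `λ(v)` over all vertices `v`. -/
noncomputable def maxLocal (G : SimpleGraph V) : ℕ := ⨆ v : V, localIndep G v

section aux

variable [Fintype V] (G : SimpleGraph V)

/-- An independent set of `G` inside `N(v)` has at most `λ(v)` elements. -/
lemma card_le_localIndep (v : V) (S : Finset V) (hS : ∀ x ∈ S, G.Adj v x)
    (hind : ∀ x ∈ S, ∀ y ∈ S, x ≠ y → ¬ G.Adj x y) : S.card ≤ localIndep G v := by
  classical
  let T : Finset (G.neighborSet v) := S.subtype (fun x => x ∈ G.neighborSet v)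
  have hT : T.card = S.card := by
    rw [Finset.card_subtype]
    congr 1
    apply Finset.filter_true_of_mem
    intro x hx
    exact hS x hx
  have hindT : (G.induce (G.neighborSet v)).IsIndepSet (T : Set (G.neighborSet v)) := by
    intro x hx y hy hxy hadj
    have hx' : (x : V) ∈ S := by simpa [T] using hx
    have hy' : (y : V) ∈ S := by simpa [T] using hy
    apply hind x hx' y hy'
    · intro h
      exact hxy (Subtype.ext h)
    · simpa using hadj
  rw [← hT]
  exact hindT.card_le_indepNum

lemma localIndep_le_max (v : V) : localIndep G v ≤ maxLocal G := by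
  unfold maxLocal
  exact le_ciSup (Set.finite_range _).bddAbove v

lemma exists_parent (hconn : G.Connected) (v w : V) (hw : G.dist v w ≠ 0) :
    ∃ u, G.Adj u w ∧ G.dist v u + 1 = G.dist v w := by
  obtain ⟨p, hp⟩ := hconn.exists_walk_length_eq_dist w v
  cases p with
  | nil => simp at hw
  | cons h q =>
    rename_i u
    refine ⟨u, h.symm, ?_⟩
    have h1 : G.dist v u ≤ q.length := by
      rw [G.dist_comm]; exact SimpleGraph.dist_le q
    have h2 : G.dist v w ≤ G.dist v u + G.dist u w := hconn.dist_triangle
    have h3 : G.dist u w = 1 := SimpleGraph.dist_eq_one_iff_adj.mpr h.symm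
    have h4 : q.length + 1 = G.dist w v := by simpa using hp
    rw [G.dist_comm (u := w)] at h4
    omega

/-- Adjacent vertices have distances from `v` differing by at most one. -/
lemma dist_adj_le (hconn : G.Connected) (v : V) {x y : V} (h : G.Adj x y) :
    G.dist v y ≤ G.dist v x + 1 := by
  have h2 : G.dist v y ≤ G.dist v x + G.dist x y := hconn.dist_triangle
  have h3 : G.dist x y = 1 := SimpleGraph.dist_eq_one_iff_adj.mpr h
  omega

lemma main_bound (hconn : G.Connected) (hcard : 2 ≤ Fintype.card V) (v : V) :
    (G.indepNum : ℤ) ≤ 1 + (evenCount G v : ℤ) * ((maxLocal G : ℤ) - 1) := by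
  classical
  set L := maxLocal G with hL
  obtain ⟨I, hI⟩ := G.exists_isNIndepSet_indepNum
  have hIind : ∀ x ∈ I, ∀ y ∈ I, x ≠ y → ¬ G.Adj x y := by
    intro x hx y hy hxy
    exact hI.isIndepSet hx hy hxy
  -- the even set
  let E : Finset V := Finset.univ.filter (fun u => Even (G.dist v u))
  have hEcard : evenCount G v = E.card := by
    unfold evenCount
    rw [← Set.ncard_coe_finset]
    congr 1
    ext u
    simp [E]
  have hvE : v ∈ E := by simp [E]
  -- parent function
  have hpar : ∀ w : V, ∃ u, G.dist v w ≠ 0 → G.Adj u w ∧ G.dist v u + 1 = G.dist v w := by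
    intro w
    by_cases h : G.dist v w = 0
    · exact ⟨w, fun h' => absurd h h'⟩
    · obtain ⟨u, hu⟩ := exists_parent G hconn v w h
      exact ⟨u, fun _ => hu⟩
  choose f hf using hpar
  -- the odd part of I
  let Io : Finset V := I.filter (fun w => ¬ Even (G.dist v w))
  let Ie : Finset V := I.filter (fun w => Even (G.dist v w))
  have hsplit : I.card = Ie.card + Io.card := by
    simp only [Ie, Io]
    rw [Finset.card_filter_add_card_filter_not]
  let A : V → Finset V := fun u => Io.filter (fun w => f w = u)
  have hmaps : ∀ w ∈ Io, f w ∈ E := by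
    intro w hw
    simp only [Io, Finset.mem_filter] at hw
    have hne : G.dist v w ≠ 0 := by
      intro h; apply hw.2; rw [h]; exact Even.zero
    have := (hf w hne).2
    simp only [E, Finset.mem_filter, Finset.mem_univ, true_and]
    have hodd := Nat.not_even_iff_odd.mp hw.2
    rw [← this] at hodd
    rcases Nat.even_or_odd (G.dist v (f w)) with h | h
    · exact h
    · exfalso
      have : Even (G.dist v (f w) + 1) := h.add_one
      exact (Nat.not_even_iff_odd.mpr hodd) this
  have hIo : Io.card = ∑ u ∈ E, (A u).card := by
    exact Finset.card_eq_sum_card_fiberwise hmaps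
  have hIe : Ie.card = ∑ u ∈ E, (if u ∈ I then 1 else 0) := by
    rw [← Finset.sum_filter, Finset.sum_const, smul_eq_mul, mul_one]
    congr 1
    ext x
    simp only [Ie, E, Finset.mem_filter, Finset.mem_univ, true_and]
    tauto
  -- facts on members of A u
  have hA : ∀ u, ∀ w ∈ A u, w ∈ I ∧ G.Adj u w ∧ G.dist v u + 1 = G.dist v w := by
    intro u w hw
    simp only [A, Io, Finset.mem_filter] at hw
    have hne : G.dist v w ≠ 0 := by
      intro h; apply hw.1.2; rw [h]; exact Even.zero
    have := hf w hne
    rw [hw.2] at this
    exact ⟨hw.1.1, this⟩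
  -- positivity of L
  have hLpos : 1 ≤ L := by
    have : ∃ w, G.Adj v w := by
      have : Nontrivial V := Fintype.one_lt_card_iff_nontrivial.mp (by omega)
      exact hconn.preconnected.exists_adj_of_nontrivial v
    obtain ⟨w, hw⟩ := this
    calc 1 = ({w} : Finset V).card := by simp
      _ ≤ localIndep G v := card_le_localIndep G v {w} (by simpa using hw)
          (by intro x hx y hy hxy; simp at hx hy; exact absurd (hx.trans hy.symm) hxy)
      _ ≤ L := localIndep_le_max G v
  -- the bound at v
  have hbv : (A v).card + (if v ∈ I then 1 else 0) ≤ L := by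
    split_ifs with h
    · have : A v = ∅ := by
        apply Finset.eq_empty_of_forall_notMem
        intro w hw
        obtain ⟨h1, h2, h3⟩ := hA v w hw
        exact hIind v h w h1 h2.ne h2
      rw [this]; simpa using hLpos
    · have : (A v).card ≤ localIndep G v := by
        apply card_le_localIndep
        · intro x hx; exact (hA v x hx).2.1
        · intro x hx y hy hxy; exact hIind x (hA v x hx).1 y (hA v y hy).1 hxy
      have h2 := localIndep_le_max G v
      omega
  -- the bound at other vertices of E
  have hbu : ∀ u ∈ E, u ≠ v → (A u).card + (if u ∈ I then 1 else 0) + 1 ≤ L := by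
    intro u huE huv
    simp only [E, Finset.mem_filter, Finset.mem_univ, true_and] at huE
    have hd0 : G.dist v u ≠ 0 := by
      intro h
      exact huv ((hconn.dist_eq_zero_iff).mp h).symm
    obtain ⟨p, hpu, hpd⟩ := exists_parent G hconn v u hd0
    have hd2 : 2 ≤ G.dist v u := by
      obtain ⟨k, hk⟩ := huE; omega
    split_ifs with h
    · have hAe : A u = ∅ := by
        apply Finset.eq_empty_of_forall_notMem
        intro w hw
        obtain ⟨h1, h2, h3⟩ := hA u w hw
        exact hIind u h w h1 h2.ne h2
      rw [hAe]
      -- L ≥ 2 : p has two nonadjacent neighbours: its parent and u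
      obtain ⟨q, hqp, hqd⟩ := exists_parent G hconn v p (by omega)
      have hqu : q ≠ u := by rintro rfl; omega
      have hnadj : ¬ G.Adj q u := by
        intro hadj
        have := dist_adj_le G hconn v hadj
        omega
      have : ({q, u} : Finset V).card ≤ localIndep G p := by
        apply card_le_localIndep
        · intro x hx
          simp only [Finset.mem_insert, Finset.mem_singleton] at hx
          rcases hx with rfl | rfl
          · exact hqp.symm
          · exact hpu
        · intro x hx y hy hxy
          simp only [Finset.mem_insert, Finset.mem_singleton] at hx hy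
          rcases hx with rfl | rfl <;> rcases hy with rfl | rfl
          · exact absurd rfl hxy
          · exact hnadj
          · exact fun h' => hnadj h'.symm
          · exact absurd rfl hxy
      rw [Finset.card_pair hqu] at this
      have h2 := localIndep_le_max G p
      simp only [Finset.card_empty]
      omega
    · have hpA : p ∉ A u := by
        intro hp
        have := (hA u p hp).2.2
        omega
      have : (insert p (A u)).card ≤ localIndep G u := by
        apply card_le_localIndep
        · intro x hx
          rcases Finset.mem_insert.mp hx with rfl | hx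
          · exact hpu.symm
          · exact (hA u x hx).2.1
        · have key : ∀ x ∈ A u, ¬ G.Adj p x := by
            intro x hx hadj
            have h1 := dist_adj_le G hconn v hadj
            have h2 := (hA u x hx).2.2
            omega
          intro x hx y hy hxy
          rcases Finset.mem_insert.mp hx with hx1 | hx1 <;>
            rcases Finset.mem_insert.mp hy with hy1 | hy1
          · exact absurd (hx1.trans hy1.symm) hxy
          · rw [hx1]; exact key y hy1
          · rw [hy1]; exact fun h' => key x hx1 h'.symm
          · exact hIind x (hA u x hx1).1 y (hA u y hy1).1 hxy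
      rw [Finset.card_insert_of_notMem hpA] at this
      have h2 := localIndep_le_max G u
      omega
  -- summing up
  have hsum : (I.card : ℤ) ≤ 1 + (E.card : ℤ) * ((L : ℤ) - 1) := by
    have h1 : I.card = ∑ u ∈ E, ((A u).card + (if u ∈ I then 1 else 0)) := by
      rw [hsplit, hIe, hIo, Finset.sum_add_distrib, add_comm]
    rw [h1, ← Finset.add_sum_erase E _ hvE]
    have h2 : ∀ u ∈ E.erase v, (((A u).card + (if u ∈ I then 1 else 0) : ℕ) : ℤ) ≤ (L : ℤ) - 1 := by
      intro u hu
      have := hbu u (Finset.mem_of_mem_erase hu) (Finset.ne_of_mem_erase hu)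
      omega
    have h3 : ((∑ u ∈ E.erase v, ((A u).card + (if u ∈ I then 1 else 0)) : ℕ) : ℤ)
        ≤ ((E.erase v).card : ℤ) * ((L : ℤ) - 1) := by
      rw [Nat.cast_sum]
      calc _ ≤ ∑ u ∈ E.erase v, ((L : ℤ) - 1) := Finset.sum_le_sum h2
        _ = _ := by rw [Finset.sum_const, nsmul_eq_mul]
    have h4 : (E.erase v).card + 1 = E.card := Finset.card_erase_add_one hvE
    have h5 : ((E.erase v).card : ℤ) = (E.card : ℤ) - 1 := by
      have : ((E.erase v).card : ℤ) + 1 = (E.card : ℤ) := by exact_mod_cast h4
      linarith
    rw [h5] at h3
    have h6 : (((A v).card + (if v ∈ I then 1 else 0) : ℕ) : ℤ) ≤ (L : ℤ) := by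
      exact_mod_cast hbv
    push_cast at h3 h6 ⊢
    linarith
  rw [hEcard, ← hI.card_eq]
  exact hsum

end aux

/-- **MP_c843e9, Q1 (proved).** Every connected finite simple graph `G` with at least two
vertices satisfies `α(G) ≤ 1 + δ_even(G) * (Λ(G) - 1)`. -/
theorem result {V : Type*} [Fintype V] (G : SimpleGraph V) (hconn : G.Connected)
    (hcard : 2 ≤ Fintype.card V) :
    (G.indepNum : ℤ) ≤ 1 + (minEven G : ℤ) * ((maxLocal G : ℤ) - 1) := by
  have : Nonempty V := hconn.nonempty
  obtain ⟨v, hv⟩ : ∃ v, evenCount G v = minEven G := by
    have := Nat.sInf_mem (Set.range_nonempty (fun v : V => evenCount G v))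
    obtain ⟨v, hv⟩ := this
    exact ⟨v, hv⟩
  rw [← hv]
  exact main_bound G hconn hcard v

end Pool.Agent.Results.MP_c843e9_co.EvenDistanceBound
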